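import Pool.Agent.helper84.ZD.SpecA

set_option autoImplicit false

open Complex MeasureTheory

namespace Pool.Agent.ZD

open Pool.Agent.helper84.DM Pool.Agent.helper78.ED Pool.Agent.DH

/-- the character `x ↦ e^(-iux)` -/
noncomputable def CDI_e (u x : ℝ) : ℂ := Complex.exp (-(((u * x : ℝ) : ℂ) * I))

theorem CDI_e_cont (u : ℝ) : Continuous (CDI_e u) := by
  unfold CDI_e
  fun_prop

theorem CDI_e_add (u x y : ℝ) : CDI_e u (x + y) = CDI_e u x * CDI_e u y := by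
  unfold CDI_e
  rw [← Complex.exp_add]
  congr 1
  push_cast
  ring

theorem CDI_e_neg (u x : ℝ) : CDI_e u (-x) * CDI_e u x = 1 := by
  rw [← CDI_e_add]
  unfold CDI_e
  simp

section

variable {G : ℝ → ℂ} (hG : Continuous G) (h0 : ∀ x, 5 < |x| → G x = 0)
  {F : ℝ → ℂ} (hF : ∀ u, F u = ∫ x : ℝ, G x * Complex.exp (-(((u * x : ℝ) : ℂ) * I)))

include h0 in
theorem CDI_cs (f : ℝ × ℝ → ℂ) (hf : ∀ p : ℝ × ℝ, G (p.2 + p.1) = 0 ∨ G p.2 = 0 → f p = 0) :
    HasCompactSupport f := by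
  refine HasCompactSupport.intro (K := Set.Icc (-10 : ℝ) 10 ×ˢ Set.Icc (-5 : ℝ) 5)
    (isCompact_Icc.prod isCompact_Icc) ?_
  rintro ⟨b, s⟩ hp
  apply hf
  by_contra hcon
  rw [not_or] at hcon
  obtain ⟨h1, h2⟩ := hcon
  have h3 : |s| ≤ 5 := by
    by_contra h
    exact h2 (h0 s (not_le.1 h))
  have h4 : |s + b| ≤ 5 := by
    by_contra h
    exact h1 (h0 (s + b) (not_le.1 h))
  rw [abs_le] at h3 h4
  exact hp ⟨⟨by linarith [h3.2, h4.1], by linarith [h3.1, h4.2]⟩, h3⟩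

include hF in
theorem CDI_shift (u s : ℝ) : ∫ b : ℝ, CDI_e u b * G (s + b) = CDI_e u (-s) * F u := by
  have h1 : ∫ b : ℝ, CDI_e u b * G (s + b) = ∫ b : ℝ, CDI_e u (-s) * (G (s + b) * CDI_e u (s + b)) := by
    congr 1
    funext b
    have e := CDI_e_neg u s
    rw [CDI_e_add]
    linear_combination (-(CDI_e u b * G (s + b))) * e
  rw [h1, integral_const_mul, hF]
  congr 1
  exact integral_add_left_eq_self (fun x => G x * CDI_e u x) s

include hG h0 in
theorem CDI_int1 (β a : ℝ) : Integrable (fun p : ℝ × ℝ =>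
    CDI_e β p.1 * (G (p.2 + a) * G (p.2 + p.1) * G p.2)) (volume.prod volume) := by
  have hc : Continuous (fun p : ℝ × ℝ => CDI_e β p.1 * (G (p.2 + a) * G (p.2 + p.1) * G p.2)) := by
    have := CDI_e_cont β
    fun_prop
  refine hc.integrable_of_hasCompactSupport (CDI_cs h0 _ ?_)
  rintro p (h | h) <;> simp [h]

include hG h0 in
theorem CDI_int2 (α β : ℝ) : Integrable (fun p : ℝ × ℝ =>
    CDI_e α p.1 * (G (p.2 + p.1) * G p.2 * CDI_e β (-p.2))) (volume.prod volume) := by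
  have hc : Continuous (fun p : ℝ × ℝ => CDI_e α p.1 * (G (p.2 + p.1) * G p.2 * CDI_e β (-p.2))) := by
    have h1 := CDI_e_cont α
    have h2 := CDI_e_cont β
    fun_prop
  refine hc.integrable_of_hasCompactSupport (CDI_cs h0 _ ?_)
  rintro p (h | h) <;> simp [h]

include hG h0 in
/-- integrability in `b` -/
theorem CDI_ib (β a : ℝ) : Integrable (fun b : ℝ =>
    CDI_e β b * ∫ s : ℝ, G (s + a) * G (s + b) * G s) := by
  have h := (CDI_int1 hG h0 β a).integral_prod_left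
  refine h.congr (Filter.Eventually.of_forall fun b => ?_)
  exact integral_const_mul (CDI_e β b) (fun s : ℝ => G (s + a) * G (s + b) * G s)

include hG h0 hF in
/-- the integral over `b` -/
theorem CDI_vb (β a : ℝ) : ∫ b : ℝ, CDI_e β b * ∫ s : ℝ, G (s + a) * G (s + b) * G s =
    F β * ∫ s : ℝ, G (s + a) * G s * CDI_e β (-s) := by
  have h1 : ∀ b : ℝ, CDI_e β b * ∫ s : ℝ, G (s + a) * G (s + b) * G s =
      ∫ s : ℝ, CDI_e β b * (G (s + a) * G (s + b) * G s) := fun b => (integral_const_mul _ _).symm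
  simp_rw [h1]
  rw [integral_integral_swap (CDI_int1 hG h0 β a)]
  rw [← integral_const_mul]
  congr 1
  funext s
  have h2 : (fun b : ℝ => CDI_e β b * (G (s + a) * G (s + b) * G s)) =
      fun b : ℝ => G (s + a) * G s * (CDI_e β b * G (s + b)) := by
    funext b
    ring
  rw [h2, integral_const_mul, CDI_shift hF]
  ring

include hG h0 in
/-- integrability in `a` -/
theorem CDI_ia (α β : ℝ) : Integrable (fun a : ℝ =>
    CDI_e α a * ∫ s : ℝ, G (s + a) * G s * CDI_e β (-s)) := by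
  have h := (CDI_int2 hG h0 α β).integral_prod_left
  refine h.congr (Filter.Eventually.of_forall fun a => ?_)
  exact integral_const_mul (CDI_e α a) (fun s : ℝ => G (s + a) * G s * CDI_e β (-s))

include hG h0 hF in
/-- the integral over `a` -/
theorem CDI_va (α β γ : ℝ) (h : α + β + γ = 0) :
    ∫ a : ℝ, CDI_e α a * ∫ s : ℝ, G (s + a) * G s * CDI_e β (-s) = F α * F γ := by
  have h1 : ∀ a : ℝ, CDI_e α a * ∫ s : ℝ, G (s + a) * G s * CDI_e β (-s) =
      ∫ s : ℝ, CDI_e α a * (G (s + a) * G s * CDI_e β (-s)) := fun b => (integral_const_mul _ _).symm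
  simp_rw [h1]
  rw [integral_integral_swap (CDI_int2 hG h0 α β), hF γ, ← integral_const_mul]
  congr 1
  funext s
  have h2 : (fun a : ℝ => CDI_e α a * (G (s + a) * G s * CDI_e β (-s))) =
      fun a : ℝ => G s * CDI_e β (-s) * (CDI_e α a * G (s + a)) := by
    funext b
    ring
  rw [h2, integral_const_mul, CDI_shift hF]
  have h3 : CDI_e β (-s) * CDI_e α (-s) = Complex.exp (-(((γ * s : ℝ) : ℂ) * I)) := by
    unfold CDI_e
    rw [← Complex.exp_add]
    congr 1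
    have h4 : γ = -α - β := by linarith
    rw [h4]
    push_cast
    ring
  rw [← h3]
  ring

end

theorem CDI_rho (W : Finset ℝ) (a b : ℝ) : rho W (-a) * rho W (a - b) * rho W b =
    ∑ t₁ ∈ W, ∑ t₂ ∈ W, ∑ t₃ ∈ W, CDI_e (t₁ - t₂) a * CDI_e (t₂ - t₃) b := by
  unfold rho
  rw [Finset.sum_mul_sum, Finset.sum_mul]
  refine Finset.sum_congr rfl fun t₁ _ => ?_
  rw [Finset.sum_mul]
  refine Finset.sum_congr rfl fun t₂ _ => ?_
  rw [Finset.mul_sum]
  refine Finset.sum_congr rfl fun t₃ _ => ?_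
  unfold CDI_e
  rw [← Complex.exp_add, ← Complex.exp_add, ← Complex.exp_add]
  congr 1
  push_cast
  ring

theorem CDI : CDI_stmt := by
  intro G hG h0 W F hF
  have e1 : ∀ a b : ℝ, rho W (-a) * rho W (a - b) * rho W b * ∫ s : ℝ, G (s + a) * G (s + b) * G s =
      ∑ t₁ ∈ W, ∑ t₂ ∈ W, ∑ t₃ ∈ W, CDI_e (t₁ - t₂) a *
        (CDI_e (t₂ - t₃) b * ∫ s : ℝ, G (s + a) * G (s + b) * G s) := by
    intro a b
    rw [CDI_rho, Finset.sum_mul]
    refine Finset.sum_congr rfl fun t₁ _ => ?_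
    rw [Finset.sum_mul]
    refine Finset.sum_congr rfl fun t₂ _ => ?_
    rw [Finset.sum_mul]
    refine Finset.sum_congr rfl fun t₃ _ => ?_
    ring
  have ib : ∀ (t₁ t₂ t₃ a : ℝ), Integrable (fun b : ℝ => CDI_e (t₁ - t₂) a *
      (CDI_e (t₂ - t₃) b * ∫ s : ℝ, G (s + a) * G (s + b) * G s)) := fun t₁ t₂ t₃ a =>
    (CDI_ib hG h0 (t₂ - t₃) a).const_mul _
  have e2 : ∀ a : ℝ, ∫ b : ℝ, rho W (-a) * rho W (a - b) * rho W b *
      ∫ s : ℝ, G (s + a) * G (s + b) * G s =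
      ∑ t₁ ∈ W, ∑ t₂ ∈ W, ∑ t₃ ∈ W, F (t₂ - t₃) *
        (CDI_e (t₁ - t₂) a * ∫ s : ℝ, G (s + a) * G s * CDI_e (t₂ - t₃) (-s)) := by
    intro a
    simp_rw [e1]
    rw [integral_finsetSum _ fun t₁ _ => integrable_finsetSum _ fun t₂ _ =>
      integrable_finsetSum _ fun t₃ _ => ib t₁ t₂ t₃ a]
    refine Finset.sum_congr rfl fun t₁ _ => ?_
    rw [integral_finsetSum _ fun t₂ _ => integrable_finsetSum _ fun t₃ _ => ib t₁ t₂ t₃ a]
    refine Finset.sum_congr rfl fun t₂ _ => ?_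
    rw [integral_finsetSum _ fun t₃ _ => ib t₁ t₂ t₃ a]
    refine Finset.sum_congr rfl fun t₃ _ => ?_
    rw [integral_const_mul, CDI_vb hG h0 hF]
    ring
  have ia : ∀ (t₁ t₂ t₃ : ℝ), Integrable (fun a : ℝ => F (t₂ - t₃) *
        (CDI_e (t₁ - t₂) a * ∫ s : ℝ, G (s + a) * G s * CDI_e (t₂ - t₃) (-s))) := fun t₁ t₂ t₃ =>
    (CDI_ia hG h0 (t₁ - t₂) (t₂ - t₃)).const_mul _
  simp_rw [e2]
  rw [integral_finsetSum _ fun t₁ _ => integrable_finsetSum _ fun t₂ _ =>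
    integrable_finsetSum _ fun t₃ _ => ia t₁ t₂ t₃]
  refine Finset.sum_congr rfl fun t₁ _ => ?_
  rw [integral_finsetSum _ fun t₂ _ => integrable_finsetSum _ fun t₃ _ => ia t₁ t₂ t₃]
  refine Finset.sum_congr rfl fun t₂ _ => ?_
  rw [integral_finsetSum _ fun t₃ _ => ia t₁ t₂ t₃]
  refine Finset.sum_congr rfl fun t₃ _ => ?_
  rw [integral_const_mul, CDI_va hG h0 hF (t₁ - t₂) (t₂ - t₃) (t₃ - t₁) (by ring)]
  ring

end Pool.Agent.ZD
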